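import Pool.Agent.helper62.K3.Defs

/-! hk:EM equivariant embedding (helper4) -/

noncomputable section

namespace Pool.Agent.helper62.K3

open scoped Classical

/-- the functions on `G` with values in `α`, with the action by right translation -/
def EM_fn (G α : Type) : Type := G → α

instance EM_act (G α : Type) [Group G] : MulAction G (EM_fn G α) where
  smul g y := fun h => y (h * g)
  one_smul y := by
    funext h
    show y (h * 1) = y h
    rw [mul_one]
  mul_smul a b y := by
    funext h
    show y (h * (a * b)) = y (h * a * b)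
    rw [mul_assoc]

theorem EM_smul {G α : Type} [Group G] (g : G) (y : EM_fn G α) (h : G) :
    (g • y) h = y (h * g) := rfl

instance EM_metric (G : Type) [Fintype G] (n : ℕ) : MetricSpace (EM_fn G (Fin n → ℝ)) :=
  inferInstanceAs (MetricSpace (G → Fin n → ℝ))

theorem EM_dist_le {G : Type} [Group G] [Fintype G] {n : ℕ} (g : G)
    (y y' : EM_fn G (Fin n → ℝ)) : dist (g • y) (g • y') ≤ dist y y' := by
  refine (dist_pi_le_iff dist_nonneg).2 fun h => ?_
  exact dist_le_pi_dist (β := G) (X := fun _ => Fin n → ℝ) y y' (h * g)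

theorem EM_isometry {G : Type} [Group G] [Fintype G] {n : ℕ} (g : G) :
    Isometry (fun y : EM_fn G (Fin n → ℝ) => g • y) := by
  refine Isometry.of_dist_eq fun y y' => le_antisymm (EM_dist_le g y y') ?_
  have := EM_dist_le g⁻¹ (g • y) (g • y')
  rwa [inv_smul_smul, inv_smul_smul] at this

theorem EM_floor {ε a b : ℝ} (hε : 0 < ε) (h : ⌊a / ε⌋ = ⌊b / ε⌋) : |a - b| < ε := by
  have := Int.abs_sub_lt_one_of_floor_eq_floor h
  rw [← sub_div, abs_div, abs_of_pos hε, div_lt_one hε] at this
  exact this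

theorem EM_card0 {G : Type} [Fintype G] {n : ℕ} (m : G → Fin n → ℤ)
    (T : Finset (G → Fin n → ℤ))
    (hT : ∀ q ∈ T, ∀ h i, q h i = m h i ∨ q h i = m h i + 1) :
    T.card ≤ 2 ^ (Fintype.card G * n) := by
  have hsub : T ⊆
      Fintype.piFinset fun h => Fintype.piFinset fun i => ({m h i, m h i + 1} : Finset ℤ) := by
    intro q hq
    simp only [Fintype.mem_piFinset, Finset.mem_insert, Finset.mem_singleton]
    exact hT q hq
  refine (Finset.card_le_card hsub).trans ?_
  rw [Fintype.card_piFinset]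
  calc ∏ h : G, (Fintype.piFinset fun i => ({m h i, m h i + 1} : Finset ℤ)).card
      ≤ ∏ _h : G, 2 ^ n := by
        apply Finset.prod_le_prod' fun h _ => ?_
        rw [Fintype.card_piFinset]
        calc ∏ i : Fin n, ({m h i, m h i + 1} : Finset ℤ).card ≤ ∏ _i : Fin n, 2 :=
              Finset.prod_le_prod' fun i _ => Finset.card_le_two
          _ = 2 ^ n := by simp
    _ = 2 ^ (Fintype.card G * n) := by
        rw [Finset.prod_const, Finset.card_univ, ← pow_mul, mul_comm]

theorem EM_card {G : Type} [Fintype G] {n : ℕ} (m : G → Fin n → ℤ)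
    (T : Finset (EM_fn G (Fin n → ℤ)))
    (hT : ∀ q ∈ T, ∀ h i, q h i = m h i ∨ q h i = m h i + 1) :
    T.card ≤ 2 ^ (Fintype.card G * n) := EM_card0 m T hT

theorem EM_grid {G : Type} [Group G] [Fintype G] {n : ℕ} (Y : Type) [MetricSpace Y]
    [MulAction G Y] (j : Y → EM_fn G (Fin n → ℝ)) (hj : Isometry j)
    (hg : ∀ (g : G) (y : Y), j (g • y) = g • j y) :
    Grid G Y (2 ^ (Fintype.card G * n)) := by
  intro ε hε
  have hε2 : 0 < ε / 2 := by positivity
  refine ⟨EM_fn G (Fin n → ℤ), inferInstance,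
    fun y h i => ⌊j y h i / (ε / 2)⌋, ?_, ?_, ε / 2, hε2, ?_⟩
  · intro g y
    funext h i
    show ⌊j (g • y) h i / (ε / 2)⌋ = ⌊j y (h * g) i / (ε / 2)⌋
    rw [hg]
    rfl
  · intro x y hxy
    rw [← hj.dist_eq]
    refine lt_of_le_of_lt ?_ (half_lt_self hε)
    refine (dist_pi_le_iff hε2.le).2 fun h => (dist_pi_le_iff hε2.le).2 fun i => ?_
    rw [Real.dist_eq]
    exact (EM_floor hε2 (congrFun (congrFun hxy h) i)).le
  · intro σ hσ
    rcases σ.eq_empty_or_nonempty with rfl | hne
    · exact Finset.card_image_le.trans (by simp)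
    have hm : ∀ (h : G) (i : Fin n), ∃ m : ℤ, ∀ y ∈ σ,
        ⌊j y h i / (ε / 2)⌋ = m ∨ ⌊j y h i / (ε / 2)⌋ = m + 1 := by
      intro h i
      obtain ⟨y₀, hy₀, hmin⟩ := Finset.exists_min_image σ (fun y => j y h i) hne
      refine ⟨⌊j y₀ h i / (ε / 2)⌋, fun y hy => ?_⟩
      have h1 : j y₀ h i ≤ j y h i := hmin y hy
      have h2 : dist y y₀ < ε / 2 := hσ y hy y₀ hy₀
      rw [← hj.dist_eq] at h2
      have h3 : dist (j y h i) (j y₀ h i) ≤ dist (j y) (j y₀) :=
        (dist_le_pi_dist (j y h) (j y₀ h) i).trans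
          (dist_le_pi_dist (β := G) (X := fun _ => Fin n → ℝ) (j y) (j y₀) h)
      have h4 : j y h i - j y₀ h i < ε / 2 := by
        have := (le_abs_self (j y h i - j y₀ h i))
        rw [← Real.dist_eq] at this
        linarith
      have h5 : ⌊j y₀ h i / (ε / 2)⌋ ≤ ⌊j y h i / (ε / 2)⌋ :=
        Int.floor_le_floor (div_le_div_of_nonneg_right h1 hε2.le)
      have h6 : ⌊j y h i / (ε / 2)⌋ < ⌊j y₀ h i / (ε / 2)⌋ + 2 := by
        rw [Int.floor_lt]
        push_cast
        have h7 := Int.lt_floor_add_one (j y₀ h i / (ε / 2))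
        have h8 : j y h i / (ε / 2) < j y₀ h i / (ε / 2) + 1 := by
          rw [div_add_one hε2.ne', div_lt_div_iff_of_pos_right hε2]
          linarith
        linarith
      omega
    choose m hm using hm
    exact EM_card m _ (fun q hq => by
      obtain ⟨y, hy, rfl⟩ := Finset.mem_image.1 hq
      exact fun h i => hm h i y hy)

/-- hk:EM equivariant embedding -/
theorem EM {S G : Type} [TopologicalSpace S] [CompactSpace S] [T2Space S] [Group G] [Finite G]
    (ρ : G →* (S ≃ₜ S))
    (hS : ∃ (n : ℕ) (e : S → EuclideanSpace ℝ (Fin n)), Topology.IsClosedEmbedding e) :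
    ∃ (Y : Type) (_ : MetricSpace Y) (_ : CompactSpace Y) (_ : MulAction G Y) (φ : S ≃ₜ Y),
      (∀ (g : G) (x : S), φ (ρ g x) = g • φ x) ∧ (∀ g : G, Isometry (fun y : Y => g • y)) ∧
      ∃ D, 1 ≤ D ∧ Grid G Y D := by
  obtain ⟨n, e, he⟩ := hS
  have : Fintype G := Fintype.ofFinite G
  let F : S → EM_fn G (Fin n → ℝ) := fun x h i => e (ρ h x) i
  have hF : ∀ (g : G) (x : S), F (ρ g x) = g • F x := by
    intro g x
    funext h i
    show e (ρ h (ρ g x)) i = e (ρ (h * g) x) i
    rw [map_mul]
    rfl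
  have hFc : Continuous F := by
    have : Continuous (fun x => (fun (h : G) (i : Fin n) => e (ρ h x) i)) := by
      refine continuous_pi fun h => continuous_pi fun i => ?_
      have h1 : Continuous (fun x => e (ρ h x)) := he.continuous.comp (ρ h).continuous
      exact (EuclideanSpace.proj (𝕜 := ℝ) i).continuous.comp h1
    exact this
  have hFi : Function.Injective F := by
    intro x y hxy
    have h1 : ∀ i, e (ρ 1 x) i = e (ρ 1 y) i := fun i => congrFun (congrFun hxy 1) i
    have h2 : e (ρ 1 x) = e (ρ 1 y) := by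
      ext i; exact h1 i
    have h3 := he.injective h2
    simpa using h3
  let Y : Type := Set.range F
  have hinv : ∀ (g : G) (y : Set.range F), g • (y : EM_fn G (Fin n → ℝ)) ∈ Set.range F := by
    rintro g ⟨_, x, rfl⟩
    exact ⟨ρ g x, hF g x⟩
  let act : MulAction G (Set.range F) :=
    { smul := fun g y => ⟨g • (y : EM_fn G (Fin n → ℝ)), hinv g y⟩
      one_smul := fun y => Subtype.ext (one_smul G (y : EM_fn G (Fin n → ℝ)))
      mul_smul := fun a b y => Subtype.ext (mul_smul a b (y : EM_fn G (Fin n → ℝ))) }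
  have hcs : CompactSpace (Set.range F) := isCompact_iff_compactSpace.1 (isCompact_range hFc)
  let φ : S ≃ₜ Set.range F :=
    Continuous.homeoOfEquivCompactToT2 (f := Equiv.ofInjective F hFi)
      (hFc.subtype_mk _)
  refine ⟨Set.range F, inferInstance, hcs, act, φ, ?_, ?_, 2 ^ (Fintype.card G * n),
    Nat.one_le_two_pow, ?_⟩
  · intro g x
    apply Subtype.ext
    exact hF g x
  · intro g
    refine Isometry.of_dist_eq fun y y' => ?_
    exact (EM_isometry g).dist_eq (y : EM_fn G (Fin n → ℝ)) y'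
  · exact EM_grid (Set.range F) Subtype.val isometry_subtype_coe (fun g y => rfl)

end Pool.Agent.helper62.K3
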